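import Pool.Agent.W412.TI.Spec

set_option autoImplicit false

/-!
Spaces of transitive interval maps: the part G.
-/

namespace Pool.Agent.W718.TI

open Set Filter Topology
open Pool.Agent.W412.TI

theorem amp_nonneg (F : C(unitInterval, unitInterval)) (t : ℝ) : 0 ≤ amp F t := by
  unfold amp err
  positivity

theorem continuous_amp (h2 : S_AVG) :
    Continuous fun q : C(unitInterval, unitInterval) × ℝ => amp q.1 q.2 := by
  unfold amp
  have := h2.2.2.2.1
  fun_prop

theorem saw_mem (h1 : S_FOLD) (c t x : ℝ) : 0 ≤ saw c t x ∧ saw c t x ≤ 1 :=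
  ⟨h1.1 _, h1.2.1 _⟩

theorem gR_mem (h1 : S_FOLD) (h2 : S_AVG) (c : ℝ) (F : C(unitInterval, unitInterval)) (t x : ℝ) :
    gR c F t x ∈ Icc (0:ℝ) 1 := by
  obtain ⟨hs0, hs1⟩ := saw_mem h1 c t x
  obtain ⟨ha0, ha1⟩ := h2.1 F t x
  have hm := amp_nonneg F t
  have l0 : 0 ≤ lo F t x := le_max_left _ _
  have l1 : lo F t x ≤ 1 := max_le zero_le_one (by linarith)
  have u0 : 0 ≤ hi F t x := le_min zero_le_one (by linarith)
  have u1 : hi F t x ≤ 1 := min_le_left _ _
  unfold gR
  constructor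
  · have := mul_nonneg (sub_nonneg.2 hs1) l0
    have := mul_nonneg hs0 u0
    linarith
  · nlinarith

theorem gR_avg (h1 : S_FOLD) (h2 : S_AVG) (c : ℝ) (F : C(unitInterval, unitInterval)) (t x : ℝ) :
    |gR c F t x - avg F t x| ≤ amp F t := by
  obtain ⟨hs0, hs1⟩ := saw_mem h1 c t x
  obtain ⟨ha0, ha1⟩ := h2.1 F t x
  have hm := amp_nonneg F t
  have l0 : avg F t x - amp F t ≤ lo F t x := le_max_right _ _
  have l1 : lo F t x ≤ avg F t x := max_le ha0 (by linarith)
  have u0 : avg F t x ≤ hi F t x := le_min ha1 (by linarith)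
  have u1 : hi F t x ≤ avg F t x + amp F t := min_le_right _ _
  unfold gR
  rw [abs_le]
  constructor
  · nlinarith
  · nlinarith

theorem amp_zero (h2 : S_AVG) (F : C(unitInterval, unitInterval)) : amp F 0 = 0 := by
  unfold amp
  rw [h2.2.2.2.2.2 F]
  simp

theorem gR_zero (h1 : S_FOLD) (h2 : S_AVG) (c : ℝ) (F : C(unitInterval, unitInterval)) (x : ℝ) :
    gR c F 0 x = avg F 0 x := by
  have := gR_avg h1 h2 c F 0 x
  rw [amp_zero h2] at this
  have := abs_nonpos_iff.1 this
  linarith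

theorem continuous_gR (h1 : S_FOLD) (h2 : S_AVG) (c : ℝ) :
    Continuous fun q : C(unitInterval, unitInterval) × ℝ × ℝ => gR c q.1 q.2.1 q.2.2 := by
  have hamp : Continuous fun q : C(unitInterval, unitInterval) × ℝ × ℝ => amp q.1 q.2.1 :=
    (continuous_amp h2).comp (by fun_prop :
      Continuous fun q : C(unitInterval, unitInterval) × ℝ × ℝ => (q.1, q.2.1))
  have havg := continuous_avg
  rw [continuous_iff_continuousAt]
  rintro ⟨F, t, x⟩
  by_cases ht : t = 0
  · subst ht
    have h0 : Tendsto (fun q : C(unitInterval, unitInterval) × ℝ × ℝ =>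
        gR c q.1 q.2.1 q.2.2 - avg q.1 q.2.1 q.2.2) (𝓝 (F, 0, x)) (𝓝 0) := by
      refine squeeze_zero_norm (a := fun q : C(unitInterval, unitInterval) × ℝ × ℝ =>
        amp q.1 q.2.1) (fun q => ?_) ?_
      · rw [Real.norm_eq_abs]
        exact gR_avg h1 h2 c _ _ _
      · have := hamp.tendsto (F, 0, x)
        simpa [amp_zero h2] using this
    have h3 := h0.add (havg.tendsto (F, 0, x))
    have h4 : (fun q : C(unitInterval, unitInterval) × ℝ × ℝ =>
        gR c q.1 q.2.1 q.2.2 - avg q.1 q.2.1 q.2.2 + avg q.1 q.2.1 q.2.2) =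
        fun q => gR c q.1 q.2.1 q.2.2 := by
      funext q; ring
    rw [h4] at h3
    unfold ContinuousAt
    simp only [gR_zero h1 h2]
    simpa using h3
  · have hsaw : ContinuousAt (fun q : C(unitInterval, unitInterval) × ℝ × ℝ =>
        saw c q.2.1 q.2.2) (F, t, x) := by
      unfold saw
      refine ContinuousAt.comp (g := fold) continuous_fold.continuousAt ?_
      refine ContinuousAt.div (by fun_prop) (by fun_prop) ?_
      simpa using ht
    have hlo : Continuous fun q : C(unitInterval, unitInterval) × ℝ × ℝ =>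
        lo q.1 q.2.1 q.2.2 := by
      unfold lo
      fun_prop
    have hhi : Continuous fun q : C(unitInterval, unitInterval) × ℝ × ℝ =>
        hi q.1 q.2.1 q.2.2 := by
      unfold hi
      fun_prop
    unfold gR
    exact ((continuousAt_const.sub hsaw).mul hlo.continuousAt).add (hsaw.mul hhi.continuousAt)

/-- the modified map -/
noncomputable def gC (h1 : S_FOLD) (h2 : S_AVG) (c : ℝ)
    (q : C(unitInterval, unitInterval) × ℝ) : C(unitInterval, unitInterval) :=
  ⟨fun x => ⟨gR c q.1 q.2 x, gR_mem h1 h2 c q.1 q.2 x⟩,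
    Continuous.subtype_mk ((continuous_gR h1 h2 c).comp (by fun_prop :
      Continuous fun x : unitInterval => (q.1, q.2, (x : ℝ)))) _⟩

theorem gC_apply (h1 : S_FOLD) (h2 : S_AVG) (c : ℝ)
    (q : C(unitInterval, unitInterval) × ℝ) (x : unitInterval) :
    ((gC h1 h2 c q x : unitInterval) : ℝ) = gR c q.1 q.2 x := rfl

theorem gC_cont (h1 : S_FOLD) (h2 : S_AVG) (c : ℝ) : Continuous (gC h1 h2 c) := by
  apply ContinuousMap.continuous_of_continuous_uncurry
  rw [continuous_induced_rng]
  have h3 : Continuous fun p : (C(unitInterval, unitInterval) × ℝ) × unitInterval =>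
      (p.1.1, p.1.2, (p.2 : ℝ)) := by fun_prop
  have h4 := (continuous_gR h1 h2 c).comp h3
  refine h4.congr (fun p => ?_)
  exact (gC_apply h1 h2 c p.1 p.2).symm

theorem gC_zero (h1 : S_FOLD) (h2 : S_AVG) (c : ℝ) (F : C(unitInterval, unitInterval)) :
    gC h1 h2 c (F, 0) = F := by
  refine ContinuousMap.ext (fun x => Subtype.ext ?_)
  rw [gC_apply]
  simp only
  rw [gR_zero h1 h2, h2.2.2.1]

theorem gC_dist (h1 : S_FOLD) (h2 : S_AVG) (c : ℝ) (F : C(unitInterval, unitInterval)) (t : ℝ) :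
    dist (gC h1 h2 c (F, t)) F ≤ 2 * amp F t := by
  have h0 : 0 ≤ 2 * amp F t := by have := amp_nonneg F t; linarith
  refine (ContinuousMap.dist_le h0).2 (fun x => ?_)
  have e1 := gR_avg h1 h2 c F t x
  have e2 := h2.2.2.2.2.1 F t x
  have e3 : err F t ≤ amp F t := by
    unfold amp
    have := abs_nonneg t
    linarith
  rw [Subtype.dist_eq, gC_apply, Real.dist_eq]
  have e4 := abs_sub_le (gR c F t x) (avg F t x) (F x : ℝ)
  simp only
  linarith

theorem gFacts (h1 : S_FOLD) (h2 : S_AVG) : S_G :=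
  ⟨gC h1 h2, gC_apply h1 h2, gC_cont h1 h2, gC_zero h1 h2, gC_dist h1 h2⟩

end Pool.Agent.W718.TI
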